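import Mathlib
import Pool.Agent.W71.EC.Chain

/-!
# Sobolev distances of compactly supported symplectomorphisms
-/

set_option autoImplicit false

open MeasureTheory

namespace Pool.Agent.H60SE

open Pool.Agent.W71.EC

variable {n : ℕ}

/-- `∫ |D²φ|^q` over `ℝ²ⁿ` -/
noncomputable def energy (q : ℝ) (φ : SympCt n) : ℝ :=
  ∫ y, ‖iteratedFDeriv ℝ 2 φ.toEquiv y‖ ^ q

/-- the difference of two elements, a compactly supported map -/
def df (φ ψ : SympCt n) (y : R2 n) : R2 n := φ.toEquiv y - ψ.toEquiv y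

/-- `∫ |D^j (φ - ψ)|^q` over `ℝ²ⁿ` -/
noncomputable def dq (j : ℕ) (q : ℝ) (φ ψ : SympCt n) : ℝ :=
  ∫ y, ‖iteratedFDeriv ℝ j (df φ ψ) y‖ ^ q

end Pool.Agent.H60SE
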