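import Mathlib
import Pool.Agent.W5h49.EC.EnergyE

/-!
# Mean oscillation of differentials and `L^q` norms of second derivatives
-/

set_option autoImplicit false

open scoped ContDiff Topology
open MeasureTheory Set

namespace Pool.Agent.H60SE

open Pool.Agent.W71.EC Pool.Agent.W5h83.HG Pool.Agent.W5h49.EC

variable {n : ℕ}

theorem intOn {E : Type*} [NormedAddCommGroup E] {g : R2 n → E} (hg : Continuous g) (x : R2 n)
    (r : ℝ) : IntegrableOn g (Metric.ball x r) :=
  (hg.continuousOn.integrableOn_compact (isCompact_closedBall x r)).mono_set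
    Metric.ball_subset_closedBall

theorem ball_pos (x : R2 n) {r : ℝ} (hr : 0 < r) : 0 < volume.real (Metric.ball x r) := by
  rw [vol_ball x hr]
  positivity

theorem avg_mono {g h : R2 n → ℝ} (hg : Continuous g) (hh : Continuous h) (hgh : ∀ y, g y ≤ h y)
    (x : R2 n) {r : ℝ} (hr : 0 < r) :
    ⨍ y in Metric.ball x r, g y ≤ ⨍ y in Metric.ball x r, h y := by
  rw [setAverage_eq, setAverage_eq, smul_eq_mul, smul_eq_mul]
  exact mul_le_mul_of_nonneg_left (setIntegral_mono (intOn hg x r) (intOn hh x r) hgh)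
    (inv_nonneg.2 (ball_pos x hr).le)

theorem avg_mul (k : ℝ) (g : R2 n → ℝ) (x : R2 n) (r : ℝ) :
    ⨍ y in Metric.ball x r, k * g y = k * ⨍ y in Metric.ball x r, g y := by
  rw [setAverage_eq, setAverage_eq, smul_eq_mul, smul_eq_mul, integral_const_mul]
  ring

/-- the second derivative of `u` -/
noncomputable def dd (u : R2 n → R2 n) (y : R2 n) : ℝ := ‖fderiv ℝ (fderiv ℝ u) y‖

theorem dd_nonneg (u : R2 n → R2 n) (y : R2 n) : 0 ≤ dd u y := by
  unfold dd
  exact norm_nonneg (fderiv ℝ (fderiv ℝ u) y)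

theorem dd_cont {u : R2 n → R2 n} (hu : ContDiff ℝ ∞ u) : Continuous (dd u) := by
  have h1 : ContDiff ℝ ∞ (fderiv ℝ u) := hu.fderiv_right (by simp)
  exact (h1.continuous_fderiv (by simp)).norm

theorem dd_eq (u : R2 n → R2 n) (y : R2 n) : ‖iteratedFDeriv ℝ 2 u y‖ = dd u y := by
  unfold dd
  rw [← norm_iteratedFDeriv_fderiv, norm_iteratedFDeriv_one]

theorem fderiv_dir {u : R2 n → R2 n} (hu : ContDiff ℝ ∞ u) (v y : R2 n) :
    ‖fderiv ℝ (fun y => fderiv ℝ u y v) y‖ ≤ dd u y * ‖v‖ := by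
  have h1 : ContDiff ℝ ∞ (fderiv ℝ u) := hu.fderiv_right (by simp)
  have h2 : HasFDerivAt (fderiv ℝ u) (fderiv ℝ (fderiv ℝ u) y) y :=
    ((h1.differentiable (by simp)) y).hasFDerivAt
  have h3 : HasFDerivAt (fun y => fderiv ℝ u y v)
      ((fderiv ℝ (fderiv ℝ u) y).flip v) y := by
    have h4 := h2.clm_apply (hasFDerivAt_const v y)
    simp only [ContinuousLinearMap.comp_zero, zero_add] at h4
    exact h4
  rw [h3.fderiv]
  calc _ ≤ ‖(fderiv ℝ (fderiv ℝ u) y).flip‖ * ‖v‖ :=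
        ContinuousLinearMap.le_opNorm _ _
    _ = dd u y * ‖v‖ := by
        rw [ContinuousLinearMap.opNorm_flip]
        rfl

/-- the constant -/
noncomputable def kap (n : ℕ) : ℝ := 8 * n * 4 ^ n

/-- the Poincaré inequality for directional derivatives -/
theorem osc_le {u : R2 n → R2 n} (hu : ContDiff ℝ ∞ u) (x v : R2 n) {r : ℝ} (hr : 0 < r) :
    ⨍ y in Metric.ball x r, nsq (fderiv ℝ u y v - ⨍ z in Metric.ball x r, fderiv ℝ u z v) ≤
      kap n * (r ^ 2 * ⨍ y in Metric.ball x r, dd u y ^ 2) * nsq v := by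
  have hDc : Continuous fun z => fderiv ℝ u z v :=
    (hu.continuous_fderiv (by simp)).clm_apply continuous_const
  have hDs : ContDiff ℝ ∞ (fun z => fderiv ℝ u z v) :=
    (hu.fderiv_right (m := ∞) (by simp)).clm_apply contDiff_const
  set m := ⨍ z in Metric.ball x r, fderiv ℝ u z v with hm
  have s1 : ⨍ y in Metric.ball x r, nsq (fderiv ℝ u y v - m) ≤
      2 * n * ⨍ y in Metric.ball x r, ‖fderiv ℝ u y v - m‖ ^ 2 := by
    rw [← avg_mul]
    exact avg_mono (CubeAux.continuous_nsq.comp (hDc.sub continuous_const))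
      (((hDc.sub continuous_const).norm.pow 2).const_mul _)
      (fun y => Form.nsq_le_norm_sq _) x hr
  have s2 : ⨍ y in Metric.ball x r, ‖fderiv ℝ u y v - m‖ ^ 2 ≤
      4 * 2 ^ (2 * n) * r ^ 2 *
        ⨍ y in Metric.ball x r, ‖fderiv ℝ (fun y => fderiv ℝ u y v) y‖ ^ 2 :=
    poin_explicit (poin1 n) hDs x hr
  have s3 : ⨍ y in Metric.ball x r, ‖fderiv ℝ (fun y => fderiv ℝ u y v) y‖ ^ 2 ≤
      ‖v‖ ^ 2 * ⨍ y in Metric.ball x r, dd u y ^ 2 := by
    rw [← avg_mul]
    have hc2 : Continuous fun y => dd u y ^ 2 := (dd_cont hu).pow 2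
    have hc3 : Continuous fun y => ‖v‖ ^ 2 * dd u y ^ 2 := continuous_const.mul hc2
    have hc4 : Continuous fun y => ‖fderiv ℝ (fun y => fderiv ℝ u y v) y‖ ^ 2 :=
      (hDs.continuous_fderiv (by simp)).norm.pow 2
    refine avg_mono hc4 hc3 (fun y => ?_) x hr
    calc ‖fderiv ℝ (fun y => fderiv ℝ u y v) y‖ ^ 2 ≤ (dd u y * ‖v‖) ^ 2 :=
          pow_le_pow_left₀ (norm_nonneg _) (fderiv_dir hu v y) 2
      _ = _ := by ring
  have e4 : (2 : ℝ) ^ (2 * n) = 4 ^ n := by
    rw [pow_mul]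
    norm_num
  have h0 : 0 ≤ ⨍ y in Metric.ball x r, dd u y ^ 2 := by
    rw [setAverage_eq]
    exact smul_nonneg (by positivity) (integral_nonneg fun y => sq_nonneg _)
  calc ⨍ y in Metric.ball x r, nsq (fderiv ℝ u y v - m)
      ≤ 2 * n * (4 * 2 ^ (2 * n) * r ^ 2 * (‖v‖ ^ 2 * ⨍ y in Metric.ball x r, dd u y ^ 2)) := by
        refine s1.trans (mul_le_mul_of_nonneg_left (s2.trans ?_) (by positivity))
        exact mul_le_mul_of_nonneg_left s3 (by positivity)
    _ = kap n * (r ^ 2 * ⨍ y in Metric.ball x r, dd u y ^ 2) * ‖v‖ ^ 2 := by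
        rw [e4, kap]
        ring
    _ ≤ _ := by
        refine mul_le_mul_of_nonneg_left (Form.norm_sq_le_nsq v) ?_
        unfold kap
        positivity

/-- Jensen -/
theorem jensen {h : R2 n → ℝ} (hc : Continuous h) (h0 : ∀ y, 0 ≤ h y) {s : ℝ} (hs : 1 ≤ s)
    (x : R2 n) {r : ℝ} (hr : 0 < r) :
    (⨍ y in Metric.ball x r, h y) ^ s ≤ ⨍ y in Metric.ball x r, h y ^ s := by
  refine (convexOn_rpow hs).map_set_average_le
    (continuousOn_id.rpow_const fun y _ => Or.inr (by linarith)) isClosed_Ici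
      (Metric.measure_ball_pos _ _ hr).ne' measure_ball_lt_top.ne
      (Filter.Eventually.of_forall fun y => h0 y) (intOn hc x r) ?_
  exact intOn (hc.rpow_const fun y => Or.inr (by linarith)) x r

/-- Jensen and the volume of a cube -/
theorem avg_rpow_le {h : R2 n → ℝ} (hc : Continuous h) (h0 : ∀ y, 0 ≤ h y) {s : ℝ} (hs : 1 ≤ s)
    (x : R2 n) {r : ℝ} (hr : 0 < r) :
    (⨍ y in Metric.ball x r, h y) ^ s ≤
      ((2 * r) ^ (2 * n))⁻¹ * ∫ y in Metric.ball x r, h y ^ s := by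
  refine (jensen hc h0 hs x hr).trans (le_of_eq ?_)
  rw [setAverage_eq, smul_eq_mul, vol_ball x hr]

theorem avg_nonneg {h : R2 n → ℝ} (h0 : ∀ y, 0 ≤ h y) (x : R2 n) (r : ℝ) :
    0 ≤ ⨍ y in Metric.ball x r, h y := by
  rw [setAverage_eq]
  exact smul_nonneg (by positivity) (integral_nonneg h0)

/-- the scale invariant mean square from the `L^q` norm, `q ≥ 2n` -/
theorem morrey {h : R2 n → ℝ} (hc : Continuous h) (h0 : ∀ y, 0 ≤ h y) {q : ℝ} (hq2 : 2 ≤ q)
    (hqn : 2 * n ≤ q) (x : R2 n) {r R e δ : ℝ} (hr : 0 < r) (hrR : r ≤ R)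
    (he : ∫ y in Metric.ball x r, h y ^ q ≤ e) (hδ : 0 ≤ δ)
    (hR : R ^ (q - 2 * n) * e ≤ δ ^ (q / 2)) :
    r ^ 2 * ⨍ y in Metric.ball x r, h y ^ 2 ≤ δ := by
  have hc2 : Continuous fun y => h y ^ 2 := hc.pow 2
  have h1 := avg_rpow_le hc2 (fun y => sq_nonneg (h y)) (s := q / 2) (by linarith) x hr
  have h2 : ∀ y, (h y ^ 2) ^ (q / 2) = h y ^ q := by
    intro y
    rw [← Real.rpow_natCast (h y) 2, ← Real.rpow_mul (h0 y)]
    congr 1
    push_cast
    ring
  simp only [h2] at h1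
  have ha := avg_nonneg (fun y => sq_nonneg (h y)) x r
  set a := ⨍ y in Metric.ball x r, h y ^ 2 with hadef
  have he0 : 0 ≤ e := le_trans (setIntegral_nonneg measurableSet_ball
    fun y _ => Real.rpow_nonneg (h0 y) _) he
  have h3 : (r ^ 2 * a) ^ (q / 2) ≤ δ ^ (q / 2) := by
    rw [Real.mul_rpow (sq_nonneg r) ha]
    have e1 : (r ^ 2) ^ (q / 2) = r ^ q := by
      rw [← Real.rpow_natCast r 2, ← Real.rpow_mul hr.le]
      congr 1
      push_cast
      ring
    rw [e1]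
    calc r ^ q * a ^ (q / 2) ≤ r ^ q * (((2 * r) ^ (2 * n))⁻¹ * e) := by
          refine mul_le_mul_of_nonneg_left (h1.trans ?_) (Real.rpow_nonneg hr.le _)
          exact mul_le_mul_of_nonneg_left he (by positivity)
      _ ≤ r ^ q * ((r ^ (2 * n))⁻¹ * e) := by
          refine mul_le_mul_of_nonneg_left ?_ (Real.rpow_nonneg hr.le _)
          refine mul_le_mul_of_nonneg_right ?_ he0
          refine inv_anti₀ (by positivity) ?_
          exact pow_le_pow_left₀ hr.le (by linarith) _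
      _ = r ^ (q - 2 * n) * e := by
          rw [Real.rpow_sub hr]
          have : r ^ (2 * (n : ℝ)) = r ^ (2 * n) := by
            rw [← Real.rpow_natCast]
            push_cast
            rfl
          rw [this]
          field_simp
      _ ≤ R ^ (q - 2 * n) * e := by
          refine mul_le_mul_of_nonneg_right ?_ he0
          exact Real.rpow_le_rpow hr.le hrR (by linarith)
      _ ≤ _ := hR
  exact (Real.rpow_le_rpow_iff (by positivity) hδ (by linarith)).1 h3

/-- averages from the `L^s` norm -/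
theorem avg_le_of {h : R2 n → ℝ} (hc : Continuous h) (h0 : ∀ y, 0 ≤ h y) {s : ℝ} (hs : 1 ≤ s)
    (x : R2 n) {r e δ : ℝ} (hr : 0 < r) (he : ∫ y in Metric.ball x r, h y ^ s ≤ e)
    (hδ : 0 ≤ δ) (h1 : e ≤ (2 * r) ^ (2 * n) * δ ^ s) :
    ⨍ y in Metric.ball x r, h y ≤ δ := by
  have h2 := avg_rpow_le hc h0 hs x hr
  have h3 : (⨍ y in Metric.ball x r, h y) ^ s ≤ δ ^ s := by
    refine h2.trans ?_
    rw [inv_mul_le_iff₀ (by positivity)]
    exact he.trans h1
  exact (Real.rpow_le_rpow_iff (avg_nonneg h0 x r) hδ (by linarith)).1 h3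

end Pool.Agent.H60SE
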