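import Mathlib
import Pool.Agent.H60SE.Defs
import Pool.Agent.H60SE.Osc
import Pool.Agent.W5h49.EC.FinalFam
import Pool.Agent.W5h83.HG.Prod

/-!
# Exponents `q ≥ 2n`
-/

set_option autoImplicit false

open scoped ContDiff Topology
open MeasureTheory Set

namespace Pool.Agent.H60SE

open Pool.Agent.W71.EC Pool.Agent.W5h83.HG Pool.Agent.W5h49.EC

variable {n : ℕ}

/-- uniform bounds for compact families -/
theorem bdd2 {C : Type} [TopologicalSpace C] [CompactSpace C] (f : C(C, SympCt n)) :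
    ∃ B : ℝ, 0 ≤ B ∧ ∀ p x, ‖(f p).toEquiv x - x‖ ≤ B ∧ ‖fderiv ℝ (f p).toEquiv x‖ ≤ B ∧
      dd (f p).toEquiv x ≤ B := by
  obtain ⟨m, hm⟩ := supp_unif (isCompact_range f.continuous)
  have hJ := JS.of_continuous f.continuous
  have c0 : Continuous (fun z : C × R2 n => (f z.1).toEquiv z.2) := (hJ 0)
  have c1 : Continuous (fun z : C × R2 n => fderiv ℝ (f z.1).toEquiv z.2) := (hJ 1).2.2
  have c2 : Continuous (fun z : C × R2 n => dd (f z.1).toEquiv z.2) := by
    have h := (hJ 2).2.2.2.2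
    exact continuous_norm.comp h
  have hK : IsCompact ((univ : Set C) ×ˢ Metric.closedBall (0 : R2 n) m) :=
    isCompact_univ.prod (isCompact_closedBall _ _)
  obtain ⟨B0, h0⟩ := hK.bddAbove_image ((c0.sub continuous_snd).norm).continuousOn
  obtain ⟨B1, h1⟩ := hK.bddAbove_image c1.norm.continuousOn
  obtain ⟨B2, h2⟩ := hK.bddAbove_image c2.continuousOn
  refine ⟨max (max B0 B1) (max B2 1), ?_, fun p x => ?_⟩
  · exact le_trans zero_le_one ((le_max_right _ _).trans (le_max_right _ _))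
  by_cases hx : x ∈ Metric.closedBall (0 : R2 n) m
  · have hz : (p, x) ∈ (univ : Set C) ×ˢ Metric.closedBall (0 : R2 n) m := ⟨trivial, hx⟩
    exact ⟨(h0 ⟨_, hz, rfl⟩).trans ((le_max_left _ _).trans (le_max_left _ _)),
      (h1 ⟨_, hz, rfl⟩).trans ((le_max_right _ _).trans (le_max_left _ _)),
      (h2 ⟨_, hz, rfl⟩).trans ((le_max_left _ _).trans (le_max_right _ _))⟩
  · have hs := hm _ ⟨p, rfl⟩
    have hpos : (0 : ℝ) ≤ max (max B0 B1) (max B2 1) :=
      le_trans zero_le_one ((le_max_right _ _).trans (le_max_right _ _))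
    refine ⟨?_, ?_, ?_⟩
    · rw [hs x hx, sub_self, norm_zero]
      exact hpos
    · have : fderiv ℝ (f p).toEquiv x = ContinuousLinearMap.id ℝ (R2 n) := by
        refine ContinuousLinearMap.ext fun v => ?_
        exact fderiv_out_supp (isCompact_closedBall _ _) hs hx v
      rw [this]
      exact ContinuousLinearMap.norm_id_le.trans ((le_max_right _ _).trans (le_max_right _ _))
    · have := en_out hs hx
      change en (f p) x ≤ _
      rw [this]
      exact hpos

theorem sub_out {φ ψ : SympCt n} {m : ℝ} (hφ : φ ∈ supportedIn (Metric.closedBall (0 : R2 n) m))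
    (hψ : ψ ∈ supportedIn (Metric.closedBall (0 : R2 n) m)) :
    ∀ y, y ∉ Metric.closedBall (0 : R2 n) m → (φ.toEquiv y - ψ.toEquiv y) = 0 := by
  intro y hy
  rw [hφ y hy, hψ y hy, sub_self]

theorem df_smooth (φ ψ : SympCt n) : ContDiff ℝ ∞ (df φ ψ) := φ.smooth.sub ψ.smooth

theorem df_iter (φ ψ : SympCt n) (j : ℕ) (y : R2 n) :
    iteratedFDeriv ℝ j φ.toEquiv y - iteratedFDeriv ℝ j ψ.toEquiv y =
      iteratedFDeriv ℝ j (df φ ψ) y := by
  have h := iteratedFDeriv_sub_apply (𝕜 := ℝ) (i := j) (x := y)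
    ((φ.smooth.of_le (by exact_mod_cast le_top)).contDiffAt (x := y) (n := j))
    ((ψ.smooth.of_le (by exact_mod_cast le_top)).contDiffAt (x := y))
  rw [← h]
  rfl

theorem df_fderiv (φ ψ : SympCt n) (y : R2 n) :
    fderiv ℝ (df φ ψ) y = fderiv ℝ φ.toEquiv y - fderiv ℝ ψ.toEquiv y :=
  ((hasFD φ y).sub (hasFD ψ y)).fderiv

theorem exists_common (φ ψ : SympCt n) : ∃ m : ℝ, ∀ y, y ∉ Metric.closedBall (0 : R2 n) m →
    df φ ψ y = 0 := by
  obtain ⟨m, hm⟩ := Pool.Agent.W5h83.HG.exists_ball φ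
  obtain ⟨k, hk⟩ := Pool.Agent.W5h83.HG.exists_ball ψ
  refine ⟨max m k, fun y hy => ?_⟩
  have h1 : y ∉ Metric.closedBall (0 : R2 n) m := fun h =>
    hy (Metric.closedBall_subset_closedBall (le_max_left _ _) h)
  have h2 : y ∉ Metric.closedBall (0 : R2 n) k := fun h =>
    hy (Metric.closedBall_subset_closedBall (le_max_right _ _) h)
  unfold df
  rw [hm y h1, hk y h2, sub_self]

/-- derivatives vanish off a closed set off which the function vanishes -/
theorem iter_out {u : R2 n → R2 n} {K : Set (R2 n)} (hK : IsClosed K) (h : ∀ y, y ∉ K → u y = 0)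
    (j : ℕ) {y : R2 n} (hy : y ∉ K) : iteratedFDeriv ℝ j u y = 0 := by
  have h1 : u =ᶠ[𝓝 y] fun _ => (0 : R2 n) := by
    filter_upwards [hK.isOpen_compl.mem_nhds hy] with z hz
    exact h z hz
  have h2 := (h1.iteratedFDeriv (𝕜 := ℝ) j).eq_of_nhds
  rw [h2]
  simp

theorem df_integrable (φ ψ : SympCt n) (j : ℕ) {q : ℝ} (hq : 0 < q) :
    Integrable fun y => ‖iteratedFDeriv ℝ j (df φ ψ) y‖ ^ q := by
  obtain ⟨m, hm⟩ := exists_common φ ψ
  have hc : Continuous fun y => ‖iteratedFDeriv ℝ j (df φ ψ) y‖ ^ q :=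
    (((df_smooth φ ψ).continuous_iteratedFDeriv (by exact_mod_cast le_top)).norm).rpow_const
      fun y => Or.inr hq.le
  refine hc.integrable_of_hasCompactSupport ?_
  refine HasCompactSupport.intro (isCompact_closedBall (0 : R2 n) m) fun y hy => ?_
  rw [iter_out Metric.isClosed_closedBall hm j hy, norm_zero, Real.zero_rpow hq.ne']

theorem energy_integrable (φ : SympCt n) {q : ℝ} (hq : 0 < q) :
    Integrable fun y => ‖iteratedFDeriv ℝ 2 φ.toEquiv y‖ ^ q := by
  obtain ⟨m, hm⟩ := Pool.Agent.W5h83.HG.exists_ball φ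
  have hc : Continuous fun y => ‖iteratedFDeriv ℝ 2 φ.toEquiv y‖ ^ q :=
    ((W71.EC.deriv 2 φ).continuous.norm).rpow_const fun y => Or.inr hq.le
  refine hc.integrable_of_hasCompactSupport ?_
  refine HasCompactSupport.intro (isCompact_closedBall (0 : R2 n) m) fun y hy => ?_
  rw [dd_eq]
  change (en φ y) ^ q = 0
  rw [en_out hm hy, Real.zero_rpow hq.ne']

theorem energy_local (φ : SympCt n) {q : ℝ} (hq : 0 < q) (x : R2 n) (r : ℝ) :
    ∫ y in Metric.ball x r, dd φ.toEquiv y ^ q ≤ energy q φ := by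
  unfold energy
  simp only [dd_eq]
  have h := energy_integrable φ hq
  simp only [dd_eq] at h
  exact setIntegral_le_integral h (Filter.Eventually.of_forall fun y =>
    Real.rpow_nonneg (dd_nonneg _ y) _)

theorem dq2_local (φ ψ : SympCt n) {q : ℝ} (hq : 0 < q) (x : R2 n) (r : ℝ) :
    ∫ y in Metric.ball x r, dd (df φ ψ) y ^ q ≤ dq 2 q φ ψ := by
  unfold dq
  simp only [dd_eq]
  have h := df_integrable φ ψ 2 hq
  simp only [dd_eq] at h
  exact setIntegral_le_integral h (Filter.Eventually.of_forall fun y =>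
    Real.rpow_nonneg (dd_nonneg _ y) _)

theorem dq0_local (φ ψ : SympCt n) {q : ℝ} (hq : 0 < q) (x : R2 n) (r : ℝ) :
    ∫ y in Metric.ball x r, ‖φ.toEquiv y - ψ.toEquiv y‖ ^ q ≤ dq 0 q φ ψ := by
  unfold dq
  have h := df_integrable φ ψ 0 hq
  simp only [norm_iteratedFDeriv_zero] at h ⊢
  exact setIntegral_le_integral h (Filter.Eventually.of_forall fun y =>
    Real.rpow_nonneg (norm_nonneg _) _)

theorem osc_n0 (θ R : ℝ) (φ : SympCt 0) (h : 0 ≤ θ) : OscLe θ R φ := by
  intro r hr _ x v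
  simp only [nsq_n0]
  rw [avg_const (0 : ℝ) x hr]
  simp

/-- small mean oscillation at small scales from a bound of the energy, `q > 2n` -/
theorem osc_of_energy (hn : 0 < n) {q : ℝ} (hq : 2 * n < q) (E : ℝ) : ∃ R : ℝ, 0 < R ∧
    ∀ φ : SympCt n, energy q φ ≤ E → OscLe (1 / 2) R φ := by
  have hn' : (1 : ℝ) ≤ n := by exact_mod_cast hn
  have hk : 0 < kap n := by unfold kap; positivity
  set δ : ℝ := 1 / (2 * kap n) with hδ
  have hδ0 : 0 < δ := by positivity
  set E' : ℝ := |E| + 1 with hE'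
  have hE0 : 0 < E' := by positivity
  set R : ℝ := (δ ^ (q / 2) / E') ^ (1 / (q - 2 * n)) with hRdef
  have hR0 : 0 < R := by
    have := Real.rpow_pos_of_pos hδ0 (q / 2)
    positivity
  have hR : R ^ (q - 2 * n) = δ ^ (q / 2) / E' := by
    rw [hRdef, ← Real.rpow_mul (by have := Real.rpow_pos_of_pos hδ0 (q / 2); positivity),
      one_div_mul_cancel (by linarith), Real.rpow_one]
  refine ⟨R, hR0, fun φ hφ r hr hrR x v => ?_⟩
  refine (osc_le φ.smooth x v hr).trans ?_
  refine mul_le_mul_of_nonneg_right ?_ (CubeAux.nsq_nonneg v)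
  have h1 : r ^ 2 * ⨍ y in Metric.ball x r, dd φ.toEquiv y ^ 2 ≤ δ := by
    refine morrey (dd_cont φ.smooth) (dd_nonneg _) (q := q) (by linarith) hq.le x hr hrR
      ((energy_local φ (by linarith) x r).trans hφ) hδ0.le ?_
    rw [hR, div_mul_eq_mul_div, div_le_iff₀ hE0]
    refine mul_le_mul_of_nonneg_left ?_ (Real.rpow_nonneg hδ0.le _)
    rw [hE']
    linarith [le_abs_self E]
  calc kap n * (r ^ 2 * ⨍ y in Metric.ball x r, dd φ.toEquiv y ^ 2) ≤ kap n * δ :=
        mul_le_mul_of_nonneg_left h1 hk.le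
    _ = 1 / 2 := by
        rw [hδ]
        field_simp

theorem eq_of_n0 {C : Type} [TopologicalSpace C] (f g : C(C, SympCt 0)) : f = g :=
  ContinuousMap.ext fun _ => SympCt.ext' fun _ => Subsingleton.elim _ _

/-- **Supercritical exponents.** -/
theorem supercritical (n : ℕ) {q s : ℝ} (hq : 2 * n < q) (hs : 1 ≤ s) (E : ℝ) :
    ∃ ε : ℝ, 0 < ε ∧ ∀ (C : Type) [TopologicalSpace C] [CompactSpace C] (f g : C(C, SympCt n)),
      (∀ p, energy q (f p) ≤ E) → (∀ p, energy q (g p) ≤ E) →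
      (∀ p, dq 0 s (f p) (g p) ≤ ε) → f.HomotopicRel g {p | f p = g p} := by
  rcases Nat.eq_zero_or_pos n with h0 | hn
  · subst h0
    refine ⟨1, one_pos, fun C _ _ f g _ _ _ => ?_⟩
    rw [eq_of_n0 f g]
    exact ContinuousMap.HomotopicRel.refl _
  obtain ⟨c, hc, key⟩ := two_maps_fam2 (n := n) (moljc2 n) (supc n) (θ := 1 / 2) (by norm_num)
  obtain ⟨R, hR, hosc⟩ := osc_of_energy hn hq E
  refine ⟨(2 * R) ^ (2 * n) * (c * R) ^ s, by
    have := Real.rpow_pos_of_pos (mul_pos hc hR) s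
    positivity, fun C _ _ f g hf hg hd => ?_⟩
  refine key R hR C f g (fun p => hosc _ (hf p)) (fun p => hosc _ (hg p)) fun p x => ?_
  exact avg_le_of ((f p).smooth.continuous.sub (g p).smooth.continuous).norm
    (fun y => norm_nonneg _) hs x hR ((dq0_local _ _ (by linarith) x R).trans (hd p))
    (by positivity) le_rfl

theorem nsq_sub_le (a b : R2 n) : nsq (a - b) ≤ 2 * nsq a + 2 * nsq b := by
  unfold nsq
  rw [Finset.mul_sum, Finset.mul_sum, ← Finset.sum_add_distrib]
  refine Finset.sum_le_sum fun i _ => ?_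
  simp only [Prod.fst_sub, Prod.snd_sub, Pi.sub_apply]
  nlinarith [sq_nonneg (a.1 i + b.1 i), sq_nonneg (a.2 i + b.2 i)]

/-- the mean oscillation of a sum -/
theorem osc_sub {φ ψ : SympCt n} {x v : R2 n} {r a b : ℝ} (hr : 0 < r)
    (h1 : ⨍ y in Metric.ball x r, nsq (D φ y v - ⨍ z in Metric.ball x r, D φ z v) ≤ a)
    (h2 : ⨍ y in Metric.ball x r, nsq (fderiv ℝ (df φ ψ) y v -
      ⨍ z in Metric.ball x r, fderiv ℝ (df φ ψ) z v) ≤ b) :
    ⨍ y in Metric.ball x r, nsq (D ψ y v - ⨍ z in Metric.ball x r, D ψ z v) ≤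
      2 * a + 2 * b := by
  have c1 : Continuous fun y => D φ y v := CubeAux.continuous_D φ v
  have c2 : Continuous fun y => D ψ y v := CubeAux.continuous_D ψ v
  have c3 : Continuous fun y => fderiv ℝ (df φ ψ) y v :=
    ((df_smooth φ ψ).continuous_fderiv (by simp)).clm_apply continuous_const
  have e1 : ∀ y, fderiv ℝ (df φ ψ) y v = D φ y v - D ψ y v := by
    intro y
    rw [df_fderiv]
    rfl
  have e2 : ⨍ z in Metric.ball x r, fderiv ℝ (df φ ψ) z v =
      (⨍ z in Metric.ball x r, D φ z v) - ⨍ z in Metric.ball x r, D ψ z v := by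
    simp only [e1]
    rw [setAverage_eq, setAverage_eq, setAverage_eq, ← smul_sub,
      integral_sub (intOn c1 x r) (intOn c2 x r)]
  set A := ⨍ z in Metric.ball x r, D φ z v
  set B := ⨍ z in Metric.ball x r, D ψ z v
  set A' := ⨍ z in Metric.ball x r, fderiv ℝ (df φ ψ) z v
  have k1 : Continuous fun y => 2 * nsq (D φ y v - A) :=
    continuous_const.mul (CubeAux.continuous_nsq.comp (c1.sub continuous_const))
  have k2 : Continuous fun y => 2 * nsq (fderiv ℝ (df φ ψ) y v - A') :=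
    continuous_const.mul (CubeAux.continuous_nsq.comp (c3.sub continuous_const))
  calc ⨍ y in Metric.ball x r, nsq (D ψ y v - B)
      ≤ ⨍ y in Metric.ball x r, (2 * nsq (D φ y v - A) +
          2 * nsq (fderiv ℝ (df φ ψ) y v - A')) := by
        have k3 : Continuous fun y => nsq (D ψ y v - B) :=
          CubeAux.continuous_nsq.comp (c2.sub continuous_const)
        have k4 : Continuous fun y => (2 * nsq (D φ y v - A) +
          2 * nsq (fderiv ℝ (df φ ψ) y v - A')) := k1.add k2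
        refine avg_mono k3 k4 (fun y => ?_) x hr
        have : D ψ y v - B = (D φ y v - A) - (fderiv ℝ (df φ ψ) y v - A') := by
          rw [e1, e2]
          abel
        rw [this]
        exact nsq_sub_le _ _
    _ = 2 * (⨍ y in Metric.ball x r, nsq (D φ y v - A)) +
        2 * ⨍ y in Metric.ball x r, nsq (fderiv ℝ (df φ ψ) y v - A') := by
        rw [← avg_mul, ← avg_mul, setAverage_eq, setAverage_eq, setAverage_eq, ← smul_add,
          integral_add (intOn k1 x r) (intOn k2 x r)]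
    _ ≤ _ := by linarith

theorem kap_pos (hn : 0 < n) : 0 < kap n := by
  have hn' : (0 : ℝ) < n := Nat.cast_pos.2 hn
  unfold kap
  positivity

/-- small mean oscillation of the differentials of a compact family at small scales -/
theorem osc_family (hn : 0 < n) {C : Type} [TopologicalSpace C] [CompactSpace C]
    (f : C(C, SympCt n)) {θ : ℝ} (hθ : 0 < θ) : ∃ R : ℝ, 0 < R ∧ ∀ p x v r, 0 < r → r ≤ R →
      ⨍ y in Metric.ball x r, nsq (D (f p) y v - ⨍ z in Metric.ball x r, D (f p) z v) ≤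
        θ * nsq v := by
  have hk := kap_pos hn
  obtain ⟨B, hB0, hB⟩ := bdd2 f
  set δ : ℝ := θ / kap n with hδ
  have hδ0 : 0 < δ := by positivity
  set R : ℝ := Real.sqrt δ / (B + 1) with hRdef
  have hR0 : 0 < R := by
    have := Real.sqrt_pos.2 hδ0
    positivity
  have hRB : R ^ 2 * B ^ 2 ≤ δ := by
    rw [hRdef, div_pow, Real.sq_sqrt hδ0.le, div_mul_eq_mul_div, div_le_iff₀ (by positivity)]
    refine mul_le_mul_of_nonneg_left ?_ hδ0.le
    exact pow_le_pow_left₀ hB0 (by linarith) 2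
  refine ⟨R, hR0, fun p x v r hr hrR => (osc_le (f p).smooth x v hr).trans ?_⟩
  refine mul_le_mul_of_nonneg_right ?_ (CubeAux.nsq_nonneg v)
  have h1 : ⨍ y in Metric.ball x r, dd (f p).toEquiv y ^ 2 ≤ B ^ 2 := by
    have h2 : ⨍ y in Metric.ball x r, dd (f p).toEquiv y ^ 2 ≤
        ⨍ _y in Metric.ball x r, B ^ 2 :=
      avg_mono ((dd_cont (f p).smooth).pow 2) continuous_const
        (fun y => pow_le_pow_left₀ (dd_nonneg _ y) (hB p y).2.2 2) x hr
    rwa [avg_const (B ^ 2) x hr] at h2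
  calc kap n * (r ^ 2 * ⨍ y in Metric.ball x r, dd (f p).toEquiv y ^ 2)
      ≤ kap n * (R ^ 2 * B ^ 2) := by
        refine mul_le_mul_of_nonneg_left ?_ hk.le
        exact mul_le_mul (pow_le_pow_left₀ hr.le hrR 2) h1
          (avg_nonneg (fun y => sq_nonneg _) x r) (by positivity)
    _ ≤ kap n * δ := mul_le_mul_of_nonneg_left hRB hk.le
    _ = θ := by
        rw [hδ]
        field_simp

/-- small mean oscillation of the differential of a difference at the scales `≤ 1` -/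
theorem osc_diff (hn : 0 < n) {q : ℝ} (hq : 2 * n ≤ q) {θ : ℝ} (hθ : 0 < θ) :
    ∃ η : ℝ, 0 < η ∧ ∀ φ ψ : SympCt n, dq 2 q φ ψ ≤ η → ∀ x v r, 0 < r → r ≤ 1 →
      ⨍ y in Metric.ball x r, nsq (fderiv ℝ (df φ ψ) y v -
        ⨍ z in Metric.ball x r, fderiv ℝ (df φ ψ) z v) ≤ θ * nsq v := by
  have hk := kap_pos hn
  have hn' : (1 : ℝ) ≤ n := by exact_mod_cast hn
  set δ : ℝ := θ / kap n with hδ
  have hδ0 : 0 < δ := by positivity
  refine ⟨δ ^ (q / 2), Real.rpow_pos_of_pos hδ0 _, fun φ ψ h x v r hr hr1 => ?_⟩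
  refine (osc_le (df_smooth φ ψ) x v hr).trans ?_
  refine mul_le_mul_of_nonneg_right ?_ (CubeAux.nsq_nonneg v)
  have h1 : r ^ 2 * ⨍ y in Metric.ball x r, dd (df φ ψ) y ^ 2 ≤ δ := by
    refine morrey (dd_cont (df_smooth _ _)) (dd_nonneg _) (q := q) (by linarith) hq x hr hr1
      ((dq2_local φ ψ (by linarith) x r).trans h) hδ0.le ?_
    rw [Real.one_rpow, one_mul]
  calc kap n * (r ^ 2 * ⨍ y in Metric.ball x r, dd (df φ ψ) y ^ 2) ≤ kap n * δ :=
        mul_le_mul_of_nonneg_left h1 hk.le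
    _ = θ := by
        rw [hδ]
        field_simp

theorem dq_comm (j : ℕ) (q : ℝ) (φ ψ : SympCt n) : dq j q φ ψ = dq j q ψ φ := by
  have h : df φ ψ = -df ψ φ := by
    funext y
    simp [df]
  unfold dq
  rw [h]
  simp only [iteratedFDeriv_neg, Pi.neg_apply, norm_neg]

/-- **Critical and supercritical exponents: local constancy**, uniformly on sets which are totally
bounded in the second derivatives. -/
theorem critical (n : ℕ) {q s : ℝ} (hq : 2 * n ≤ q) (hs : 1 ≤ s) (C : Type)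
    [TopologicalSpace C] [CompactSpace C] (S : Set C(C, SympCt n))
    (hS : ∀ η : ℝ, 0 < η → ∃ T : Finset C(C, SympCt n), ∀ f ∈ S, ∃ t ∈ T,
      ∀ p, dq 2 q (t p) (f p) ≤ η) :
    ∃ ε : ℝ, 0 < ε ∧ ∀ f ∈ S, ∀ g : C(C, SympCt n),
      (∀ p, dq 0 s (f p) (g p) ≤ ε ∧ dq 2 q (f p) (g p) ≤ ε) →
      f.HomotopicRel g {p | f p = g p} := by
  classical
  rcases Nat.eq_zero_or_pos n with h0 | hn
  · subst h0
    refine ⟨1, one_pos, fun f _ g _ => ?_⟩
    rw [eq_of_n0 f g]
    exact ContinuousMap.HomotopicRel.refl _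
  obtain ⟨c, hc, key⟩ := two_maps_fam2 (n := n) (moljc2 n) (supc n) (θ := 1 / 2) (by norm_num)
  obtain ⟨η₁, hη₁, hd₁⟩ := osc_diff hn hq (θ := 1 / 64) (by norm_num)
  obtain ⟨η₂, hη₂, hd₂⟩ := osc_diff hn hq (θ := 1 / 16) (by norm_num)
  obtain ⟨T, hT⟩ := hS η₁ hη₁
  choose ρ hρ0 hρ using fun t : C(C, SympCt n) => osc_family hn t (θ := 1 / 64) (by norm_num)
  obtain ⟨R, hR0, hR1, hRT⟩ : ∃ R : ℝ, 0 < R ∧ R ≤ 1 ∧ ∀ t ∈ T, R ≤ ρ t := by
    clear hT
    induction T using Finset.induction_on with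
    | empty => exact ⟨1, one_pos, le_rfl, by simp⟩
    | insert a T _ ih =>
      obtain ⟨R, h0, h1, h2⟩ := ih
      refine ⟨min R (ρ a), lt_min h0 (hρ0 a), (min_le_left _ _).trans h1, fun t ht => ?_⟩
      rcases Finset.mem_insert.1 ht with rfl | ht
      · exact min_le_right _ _
      · exact (min_le_left _ _).trans (h2 t ht)
  have hcp : 0 < (c * R) ^ s := Real.rpow_pos_of_pos (mul_pos hc hR0) s
  refine ⟨min ((2 * R) ^ (2 * n) * (c * R) ^ s) η₂, by positivity, fun f hf g hg => ?_⟩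
  obtain ⟨t, ht, htf⟩ := hT f hf
  have of : ∀ p x v r, 0 < r → r ≤ R → ⨍ y in Metric.ball x r,
      nsq (D (f p) y v - ⨍ z in Metric.ball x r, D (f p) z v) ≤ 1 / 16 * nsq v := by
    intro p x v r hr hrR
    refine (osc_sub hr (hρ t p x v r hr (hrR.trans (hRT t ht)))
      (hd₁ _ _ (htf p) x v r hr (hrR.trans hR1))).trans (le_of_eq ?_)
    ring
  refine key R hR0 C f g (fun p r hr hrR x v => ?_) (fun p r hr hrR x v => ?_) fun p x => ?_
  · refine (of p x v r hr hrR).trans ?_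
    exact mul_le_mul_of_nonneg_right (by norm_num) (CubeAux.nsq_nonneg v)
  · refine (osc_sub hr (of p x v r hr hrR)
      (hd₂ _ _ ((hg p).2.trans (min_le_right _ _)) x v r hr (hrR.trans hR1))).trans ?_
    have := CubeAux.nsq_nonneg v
    linarith
  · exact avg_le_of ((f p).smooth.continuous.sub (g p).smooth.continuous).norm
      (fun y => norm_nonneg _) hs x hR0 ((dq0_local _ _ (by linarith) x R).trans (hg p).1)
      (by positivity) (min_le_left _ _)

end Pool.Agent.H60SE
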