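import Mathlib
import Pool.Agent.H60SE.Sup
import Pool.Agent.W71.EC.Dil

/-!
# Exponents `q < 2n`: insertion of small copies
-/

set_option autoImplicit false

open scoped ContDiff Topology
open MeasureTheory Set

namespace Pool.Agent.H60SE

open Pool.Agent.W71.EC Pool.Agent.W5h83.HG Pool.Agent.W5h49.EC

variable {n : ℕ}

theorem lp_le_add {l : ℝ} (hl : 0 < l) (t : ℝ) : W71.EC.lp l t ≤ 1 + l := by
  have h1 := (ta_mem t).1
  have h2 := (ta_mem t).2
  unfold W71.EC.lp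
  nlinarith

theorem dil_supp_all {φ : SympCt n} {m : ℝ} (hm : 0 ≤ m)
    (hφ : φ ∈ supportedIn (Metric.closedBall (0 : R2 n) m)) (a : R2 n) {l : ℝ} (hl : 0 < l)
    (t : ℝ) : dil φ a l hl t ∈ supportedIn (Metric.closedBall (0 : R2 n) (‖a‖ + (1 + l) * m)) := by
  refine Pool.Agent.W71.EC.supp_mono ?_ (conjH_supp hφ (ta t • a) (lp_pos hl t))
  intro p hp
  rw [mem_closedBall_iff_norm] at hp
  rw [mem_closedBall_zero_iff]
  have h1 : ‖ta t • a‖ ≤ ‖a‖ := by
    rw [norm_smul, Real.norm_eq_abs, abs_of_nonneg (ta_mem t).1]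
    exact mul_le_of_le_one_left (norm_nonneg _) (ta_mem t).2
  have h2 : W71.EC.lp l t * m ≤ (1 + l) * m := mul_le_mul_of_nonneg_right (lp_le_add hl t) hm
  have h3 : ‖p‖ ≤ ‖ta t • a‖ + ‖p - ta t • a‖ := by
    have := norm_add_le (ta t • a) (p - ta t • a)
    rwa [add_sub_cancel] at this
  linarith

/-- the conjugates of a jointly smooth family form a jointly smooth family -/
theorem dil_JS {P : Type*} [TopologicalSpace P] {h : P → SympCt n} (hJ : JS h) (a : R2 n) (l : ℝ)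
    (hl : 0 < l) : JS (fun z : ℝ × P => dil (h z.2) a l hl z.1) := by
  intro k
  have ct : Continuous (fun z : ℝ × P => ta z.1) := ta_smooth.continuous.comp continuous_fst
  have cl : Continuous (fun z : ℝ × P => W71.EC.lp l z.1) :=
    continuous_const.sub (ct.mul continuous_const)
  have cli : Continuous (fun z : ℝ × P => (W71.EC.lp l z.1)⁻¹) := cl.inv₀ fun z => (lp_pos hl z.1).ne'
  have c1 : JC k (R2 n) (fun (z : ℝ × P) (x : R2 n) =>
      (W71.EC.lp l z.1)⁻¹ • (x + -(ta z.1 • a))) := by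
    refine JC.smulP cli (JC.add (f := fun (_ : ℝ × P) (x : R2 n) => x)
      (JC.ofSmooth contDiff_id k) ?_)
    exact JC.constX (ct.smul continuous_const).neg k
  have c2 : JC k (R2 n) (fun (z : ℝ × P) (x : R2 n) => (h z.2).toEquiv x) :=
    (hJ k).param continuous_snd
  have c3 := JC.add (JC.constX (E := R2 n) (a := fun z : ℝ × P => ta z.1 • a)
    (ct.smul continuous_const) k) (JC.smulP cl (JC.comp c2 c1))
  have e : (fun (z : ℝ × P) (x : R2 n) => (dil (h z.2) a l hl z.1).toEquiv x) =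
      fun (z : ℝ × P) (x : R2 n) => ta z.1 • a +
        W71.EC.lp l z.1 • (h z.2).toEquiv ((W71.EC.lp l z.1)⁻¹ • (x + -(ta z.1 • a))) := by
    funext z x
    rw [← sub_eq_add_neg]
    rfl
  rw [e]
  exact c3

theorem dil_one_eq (a : R2 n) (l : ℝ) (hl : 0 < l) (t : ℝ) : dil one a l hl t = one := by
  refine SympCt.ext' fun x => ?_
  rw [dil, conjH_apply]
  change ta t • a + W71.EC.lp l t • ((W71.EC.lp l t)⁻¹ • (x - ta t • a)) = x
  rw [smul_smul, mul_inv_cancel₀ (lp_pos hl t).ne', one_smul]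
  abel

theorem inv_comp_self (φ : SympCt n) : comp (inv φ) φ = one := by
  refine SympCt.ext' fun x => ?_
  change φ.toEquiv.symm (φ.toEquiv x) = x
  rw [Equiv.symm_apply_apply]

theorem comp_inv_comp' (φ ψ : SympCt n) : comp φ (comp (inv φ) ψ) = ψ := by
  refine SympCt.ext' fun x => ?_
  change φ.toEquiv (φ.toEquiv.symm (ψ.toEquiv x)) = ψ.toEquiv x
  rw [Equiv.apply_symm_apply]

theorem comp_one (φ : SympCt n) : comp φ one = φ := SympCt.ext' fun _ => rfl

/-- **Replacement of `g` by `f` times a small copy of `f⁻¹ g`.** -/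
theorem insert_homotopic {C : Type} [TopologicalSpace C] [CompactSpace C] (f g : C(C, SympCt n))
    (a : R2 n) (l : ℝ) (hl : 0 < l) : ∃ k : C(C, SympCt n),
      (∀ p, k p = comp (f p) (conjH (comp (inv (f p)) (g p)) a l hl.ne')) ∧
      g.HomotopicRel k {p | f p = g p} := by
  let h : C(C, SympCt n) := mulC (invC f) g
  obtain ⟨m, hm⟩ := supp_unif (isCompact_range f.continuous)
  obtain ⟨m', hm'⟩ := supp_unif (isCompact_range h.continuous)
  let F : ℝ × C → SympCt n := fun z => comp (f z.2) (dil (h z.2) a l hl z.1)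
  have hJ : JS F := by
    intro k
    have h1 : JC k (R2 n) (fun (z : ℝ × C) (x : R2 n) => (f z.2).toEquiv x) :=
      (JS.of_continuous f.continuous k).param continuous_snd
    have h2 : JC k (R2 n) (fun (z : ℝ × C) (x : R2 n) => (dil (h z.2) a l hl z.1).toEquiv x) :=
      dil_JS (JS.of_continuous h.continuous) a l hl k
    have h3 : JC k (R2 n) (fun (z : ℝ × C) (x : R2 n) =>
      (f z.2).toEquiv ((dil (h z.2) a l hl z.1).toEquiv x)) := JC.comp h1 h2
    exact h3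
  have hF : Continuous F := hJ.continuous _
    ((isCompact_closedBall (0 : R2 n) m).union
      (isCompact_closedBall (0 : R2 n) (‖a‖ + (1 + l) * m')))
    fun z => comp_supp
      (Pool.Agent.W71.EC.supp_mono Set.subset_union_left (hm _ ⟨z.2, rfl⟩))
      (Pool.Agent.W71.EC.supp_mono Set.subset_union_right
        (dil_supp_all (Nat.cast_nonneg _) (hm' _ ⟨z.2, rfl⟩) a hl z.1))
  let k : C(C, SympCt n) := ⟨fun p => F (1, p),
    hF.comp (continuous_const.prodMk continuous_id)⟩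
  have hc' : Continuous (fun z : unitInterval × C => F ((z.1 : ℝ), z.2)) :=
    hF.comp ((continuous_subtype_val.comp continuous_fst).prodMk continuous_snd)
  refine ⟨k, fun p => ?_, ⟨⟨⟨⟨_, hc'⟩, ?_, ?_⟩, ?_⟩⟩⟩
  · change comp (f p) (dil (h p) a l hl 1) = _
    rw [dil_one]
    rfl
  · intro p
    change comp (f p) (dil (h p) a l hl ((0 : unitInterval) : ℝ)) = g p
    rw [Set.Icc.coe_zero, dil_zero]
    exact comp_inv_comp' _ _
  · intro p
    change F (((1 : unitInterval) : ℝ), p) = F (1, p)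
    rw [Set.Icc.coe_one]
  · intro t p hp
    have hp' : f p = g p := hp
    change comp (f p) (dil (comp (inv (f p)) (g p)) a l hl (t : ℝ)) = g p
    rw [← hp', inv_comp_self, dil_one_eq, comp_one]

/-- second derivative of the conjugate -/
theorem conj_dd (φ : SympCt n) (a : R2 n) {l : ℝ} (hl : 0 < l) (x : R2 n) :
    dd (conjH φ a l hl.ne').toEquiv x = l⁻¹ * dd φ.toEquiv (l⁻¹ • (x - a)) := by
  have h1 : fderiv ℝ (conjH φ a l hl.ne').toEquiv =
      fun x => fderiv ℝ φ.toEquiv (l⁻¹ • (x - a)) := by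
    funext x
    exact conj_fderiv φ a l hl.ne' x
  have hs : ContDiff ℝ ∞ (fderiv ℝ φ.toEquiv) := φ.smooth.fderiv_right (by simp)
  have h2 : HasFDerivAt (fderiv ℝ φ.toEquiv) (fderiv ℝ (fderiv ℝ φ.toEquiv) (l⁻¹ • (x - a)))
      (l⁻¹ • (x - a)) := ((hs.differentiable (by simp)) _).hasFDerivAt
  have h3 : HasFDerivAt (fun x : R2 n => l⁻¹ • (x - a))
      (l⁻¹ • ContinuousLinearMap.id ℝ (R2 n)) x :=
    ((hasFDerivAt_id x).sub_const a).const_smul l⁻¹
  have h4 := h2.comp x h3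
  unfold dd
  rw [h1]
  have h5 : fderiv ℝ (fun x => fderiv ℝ φ.toEquiv (l⁻¹ • (x - a))) x =
      l⁻¹ • fderiv ℝ (fderiv ℝ φ.toEquiv) (l⁻¹ • (x - a)) := by
    have h6 : (fderiv ℝ (fderiv ℝ φ.toEquiv) (l⁻¹ • (x - a))).comp
        (l⁻¹ • ContinuousLinearMap.id ℝ (R2 n)) =
        l⁻¹ • fderiv ℝ (fderiv ℝ φ.toEquiv) (l⁻¹ • (x - a)) := by
      rw [ContinuousLinearMap.comp_smul, ContinuousLinearMap.comp_id]
    rw [← h6]
    exact h4.fderiv
  rw [h5, @norm_smul ℝ (R2 n →L[ℝ] (R2 n →L[ℝ] R2 n)) _ _ _ (NormedSpace.toNormSMulClass),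
    Real.norm_eq_abs, abs_of_pos (inv_pos.2 hl)]

theorem conj_fderiv' (φ : SympCt n) (a : R2 n) {l : ℝ} (hl : 0 < l) (x : R2 n) :
    fderiv ℝ (conjH φ a l hl.ne').toEquiv x = fderiv ℝ φ.toEquiv (l⁻¹ • (x - a)) :=
  conj_fderiv φ a l hl.ne' x

theorem comp_fd (φ H : SympCt n) (x : R2 n) : fderiv ℝ (comp φ H).toEquiv x =
    (fderiv ℝ φ.toEquiv (H.toEquiv x)).comp (fderiv ℝ H.toEquiv x) :=
  ((hasFD φ (H.toEquiv x)).comp x (hasFD H x)).fderiv

theorem dd_comp (φ H : SympCt n) (x : R2 n) : dd (comp φ H).toEquiv x ≤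
    ‖fderiv ℝ φ.toEquiv (H.toEquiv x)‖ * dd H.toEquiv x +
      dd φ.toEquiv (H.toEquiv x) * ‖fderiv ℝ H.toEquiv x‖ ^ 2 := by
  have h1 : fderiv ℝ (comp φ H).toEquiv = fun x =>
      (fderiv ℝ φ.toEquiv (H.toEquiv x)).comp (fderiv ℝ H.toEquiv x) := by
    funext x
    exact comp_fd φ H x
  have s1 : ContDiff ℝ ∞ (fderiv ℝ φ.toEquiv) := φ.smooth.fderiv_right (by simp)
  have s2 : ContDiff ℝ ∞ (fderiv ℝ H.toEquiv) := H.smooth.fderiv_right (by simp)
  have h2 : HasFDerivAt (fun x => fderiv ℝ φ.toEquiv (H.toEquiv x))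
      ((fderiv ℝ (fderiv ℝ φ.toEquiv) (H.toEquiv x)).comp (fderiv ℝ H.toEquiv x)) x :=
    (((s1.differentiable (by simp)) _).hasFDerivAt).comp x (hasFD H x)
  have h3 : HasFDerivAt (fderiv ℝ H.toEquiv) (fderiv ℝ (fderiv ℝ H.toEquiv) x) x :=
    ((s2.differentiable (by simp)) _).hasFDerivAt
  have h4 := h2.clm_comp h3
  unfold dd
  rw [h1, h4.fderiv]
  refine ContinuousLinearMap.opNorm_le_bound _ (by positivity) fun v => ?_
  change ‖(fderiv ℝ φ.toEquiv (H.toEquiv x)).comp (fderiv ℝ (fderiv ℝ H.toEquiv) x v) +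
    (fderiv ℝ (fderiv ℝ φ.toEquiv) (H.toEquiv x) (fderiv ℝ H.toEquiv x v)).comp
      (fderiv ℝ H.toEquiv x)‖ ≤ _
  have e1 : ‖(fderiv ℝ φ.toEquiv (H.toEquiv x)).comp (fderiv ℝ (fderiv ℝ H.toEquiv) x v)‖ ≤
      ‖fderiv ℝ φ.toEquiv (H.toEquiv x)‖ * (‖fderiv ℝ (fderiv ℝ H.toEquiv) x‖ * ‖v‖) :=
    (ContinuousLinearMap.opNorm_comp_le _ _).trans
      (mul_le_mul_of_nonneg_left (ContinuousLinearMap.le_opNorm _ _) (norm_nonneg _))
  have e2 : ‖(fderiv ℝ (fderiv ℝ φ.toEquiv) (H.toEquiv x) (fderiv ℝ H.toEquiv x v)).comp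
      (fderiv ℝ H.toEquiv x)‖ ≤ (‖fderiv ℝ (fderiv ℝ φ.toEquiv) (H.toEquiv x)‖ *
        (‖fderiv ℝ H.toEquiv x‖ * ‖v‖)) * ‖fderiv ℝ H.toEquiv x‖ := by
    refine (ContinuousLinearMap.opNorm_comp_le _ _).trans
      (mul_le_mul_of_nonneg_right ?_ (norm_nonneg _))
    refine (ContinuousLinearMap.le_opNorm _ _).trans ?_
    exact mul_le_mul_of_nonneg_left (ContinuousLinearMap.le_opNorm _ _) (norm_nonneg _)
  calc _ ≤ _ := (norm_add_le _ _).trans (add_le_add e1 e2)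
    _ = _ := by ring

theorem conj_near (h : SympCt n) {B : ℝ} (hB : ∀ x, ‖h.toEquiv x - x‖ ≤ B) (a : R2 n) {l : ℝ}
    (hl : 0 < l) (x : R2 n) : ‖(conjH h a l hl.ne').toEquiv x - x‖ ≤ l * B := by
  rw [conjH_apply]
  have e1 : a + l • h.toEquiv (l⁻¹ • (x - a)) - x =
      l • (h.toEquiv (l⁻¹ • (x - a)) - l⁻¹ • (x - a)) := by
    have e2 : l • (l⁻¹ • (x - a)) = x - a := by
      rw [smul_smul, mul_inv_cancel₀ hl.ne', one_smul]
    rw [smul_sub l, e2]
    abel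
  rw [e1, norm_smul, Real.norm_eq_abs, abs_of_pos hl]
  exact mul_le_mul_of_nonneg_left (hB _) hl.le

theorem lip_of {φ : SympCt n} {B : ℝ} (hB : ∀ x, ‖fderiv ℝ φ.toEquiv x‖ ≤ B) (x y : R2 n) :
    ‖φ.toEquiv x - φ.toEquiv y‖ ≤ B * ‖x - y‖ :=
  Convex.norm_image_sub_le_of_norm_fderiv_le (𝕜 := ℝ) (s := univ)
    (fun z _ => (hasFD φ z).differentiableAt) (fun z _ => hB z) convex_univ trivial trivial

/-- integrals over small cubes -/
theorem int_le {F : R2 n → ℝ} {a : R2 n} {ρ A : ℝ} (hρ : 0 < ρ)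
    (h0 : ∀ y, y ∉ Metric.ball a ρ → F y = 0) (hF0 : ∀ y, 0 ≤ F y) (hF : ∀ y, F y ≤ A) :
    ∫ y, F y ≤ A * (2 * ρ) ^ (2 * n) := by
  rw [← setIntegral_eq_integral_of_forall_compl_eq_zero h0, ← vol_ball a hρ]
  refine (Real.le_norm_self _).trans ?_
  refine norm_setIntegral_le_of_norm_le_const measure_ball_lt_top fun y _ => ?_
  rw [Real.norm_eq_abs, abs_of_nonneg (hF0 y)]
  exact hF y

end Pool.Agent.H60SE
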