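import Mathlib
import Pool.Agent.H60SE.Sub

/-!
# The critical Sobolev exponent: the estimates
-/

set_option autoImplicit false

open scoped ContDiff Topology
open MeasureTheory Set

namespace Pool.Agent.H60SE

open Pool.Agent.W71.EC Pool.Agent.W5h83.HG Pool.Agent.W5h49.EC

variable {n : ℕ}

/-- the family with a small copy inserted agrees with the old one outside a small cube -/
theorem ins_out {φ h : SympCt n} {M : ℝ} (hM : h ∈ supportedIn (Metric.closedBall (0 : R2 n) M))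
    (a : R2 n) {l : ℝ} (hl : 0 < l) {x : R2 n} (hx : x ∉ Metric.closedBall a (l * M)) :
    (comp φ (conjH h a l hl.ne')).toEquiv x = φ.toEquiv x := by
  change φ.toEquiv ((conjH h a l hl.ne').toEquiv x) = _
  rw [conjH_supp hM a hl x hx]

theorem df_out {φ h : SympCt n} {M : ℝ} (hM : h ∈ supportedIn (Metric.closedBall (0 : R2 n) M))
    (a : R2 n) {l : ℝ} (hl : 0 < l) (j : ℕ) {x : R2 n} (hx : x ∉ Metric.ball a (l * (M + 1))) :
    iteratedFDeriv ℝ j (df φ (comp φ (conjH h a l hl.ne'))) x = 0 := by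
  refine iter_out (K := Metric.closedBall a (l * M)) Metric.isClosed_closedBall
    (fun y hy => ?_) j fun h1 => hx ?_
  · unfold df
    rw [ins_out hM a hl hy, sub_self]
  · refine Metric.closedBall_subset_ball ?_ h1
    nlinarith

/-- the bound for the `j`-th derivatives gives the bound of the integrals -/
theorem dq_le {φ h : SympCt n} {M : ℝ} (hM0 : 0 ≤ M)
    (hM : h ∈ supportedIn (Metric.closedBall (0 : R2 n) M))
    (a : R2 n) {l : ℝ} (hl : 0 < l) (j : ℕ) {q A : ℝ} (hq : 0 < q)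
    (hA : ∀ x, ‖iteratedFDeriv ℝ j (df φ (comp φ (conjH h a l hl.ne'))) x‖ ≤ A) :
    dq j q φ (comp φ (conjH h a l hl.ne')) ≤ A ^ q * (2 * (l * (M + 1))) ^ (2 * n) := by
  unfold dq
  refine int_le (a := a) (by positivity) (fun y hy => ?_)
    (fun y => Real.rpow_nonneg (norm_nonneg _) _)
    fun y => Real.rpow_le_rpow (norm_nonneg _) (hA y) hq.le
  rw [df_out hM a hl j hy, norm_zero, Real.zero_rpow hq.ne']

/-- **Subcritical exponents.** -/
theorem subcritical (n : ℕ) (C : Type) [TopologicalSpace C] [CompactSpace C]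
    (f g : C(C, SympCt n)) : ∃ E : ℝ, ∀ q s : ℝ, 0 < q → q < 2 * n → 0 < s →
      ∀ (ε : ℝ) (a : R2 n), 0 < ε → ∃ h : C(C, SympCt n),
        g.HomotopicRel h {p | f p = g p} ∧ ∀ p,
          (∀ x, x ∉ Metric.ball a ε → (h p).toEquiv x = (f p).toEquiv x) ∧
          (∀ x, ‖(f p).toEquiv x - (h p).toEquiv x‖ < ε ∧ ‖fderiv ℝ (h p).toEquiv x‖ ≤ E) ∧
          dq 1 s (f p) (h p) < ε ∧ dq 2 q (f p) (h p) < ε ∧ dq 2 (2 * n) (f p) (h p) ≤ E := by
  let H : C(C, SympCt n) := mulC (invC f) g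
  obtain ⟨M, hM0, hM⟩ : ∃ M : ℝ, 0 ≤ M ∧
      ∀ p, H p ∈ supportedIn (Metric.closedBall (0 : R2 n) M) := by
    obtain ⟨m, hm⟩ := supp_unif (isCompact_range H.continuous)
    exact ⟨m, Nat.cast_nonneg _, fun p => hm _ ⟨p, rfl⟩⟩
  obtain ⟨B₁, hB₁0, hB₁⟩ := bdd2 f
  obtain ⟨B₂, hB₂0, hB₂⟩ := bdd2 H
  set B : ℝ := max B₁ B₂ with hBdef
  have hB0 : 0 ≤ B := hB₁0.trans (le_max_left _ _)
  have hf : ∀ p x, ‖fderiv ℝ (f p).toEquiv x‖ ≤ B ∧ dd (f p).toEquiv x ≤ B := fun p x =>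
    ⟨(hB₁ p x).2.1.trans (le_max_left _ _), (hB₁ p x).2.2.trans (le_max_left _ _)⟩
  have hH : ∀ p x, ‖(H p).toEquiv x - x‖ ≤ B ∧ ‖fderiv ℝ (H p).toEquiv x‖ ≤ B ∧
      dd (H p).toEquiv x ≤ B := fun p x =>
    ⟨(hB₂ p x).1.trans (le_max_right _ _), (hB₂ p x).2.1.trans (le_max_right _ _),
      (hB₂ p x).2.2.trans (le_max_right _ _)⟩
  -- the bounds
  have hD1 : ∀ p (a : R2 n) (l : ℝ) (hl : 0 < l) x,
      ‖fderiv ℝ (comp (f p) (conjH (H p) a l hl.ne')).toEquiv x‖ ≤ B * B := by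
    intro p a l hl x
    rw [comp_fd, conj_fderiv' _ _ hl]
    exact (ContinuousLinearMap.opNorm_comp_le _ _).trans
      (mul_le_mul (hf p _).1 (hH p _).2.1 (norm_nonneg _) hB0)
  have hD2 : ∀ p (a : R2 n) (l : ℝ) (hl : 0 < l), l ≤ 1 → ∀ x,
      dd (comp (f p) (conjH (H p) a l hl.ne')).toEquiv x ≤ (B ^ 2 + B ^ 3) / l := by
    intro p a l hl hl1 x
    refine (dd_comp _ _ x).trans ?_
    rw [conj_dd _ _ hl, conj_fderiv' _ _ hl]
    have k1 : ‖fderiv ℝ (f p).toEquiv ((conjH (H p) a l hl.ne').toEquiv x)‖ *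
        (l⁻¹ * dd (H p).toEquiv (l⁻¹ • (x - a))) ≤ B * (l⁻¹ * B) :=
      mul_le_mul (hf p _).1 (mul_le_mul_of_nonneg_left (hH p _).2.2 (inv_nonneg.2 hl.le))
        (mul_nonneg (inv_nonneg.2 hl.le) (dd_nonneg _ _)) hB0
    have k2 : dd (f p).toEquiv ((conjH (H p) a l hl.ne').toEquiv x) *
        ‖fderiv ℝ (H p).toEquiv (l⁻¹ • (x - a))‖ ^ 2 ≤ B * B ^ 2 :=
      mul_le_mul (hf p _).2 (pow_le_pow_left₀ (norm_nonneg _) (hH p _).2.1 2)
        (sq_nonneg _) hB0
    have k3 : B * B ^ 2 ≤ B ^ 3 / l := by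
      rw [le_div_iff₀ hl]
      calc B * B ^ 2 * l ≤ B * B ^ 2 * 1 := mul_le_mul_of_nonneg_left hl1 (by positivity)
        _ = B ^ 3 := by ring
    calc _ ≤ B * (l⁻¹ * B) + B * B ^ 2 := add_le_add k1 k2
      _ ≤ B ^ 2 / l + B ^ 3 / l := by
          refine add_le_add (le_of_eq ?_) k3
          field_simp
      _ = _ := by ring
  set A : ℝ := B + (B ^ 2 + B ^ 3) with hAdef
  have hA0 : 0 ≤ A := by positivity
  have b1 : ∀ p (a : R2 n) (l : ℝ) (hl : 0 < l) x,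
      ‖iteratedFDeriv ℝ 1 (df (f p) (comp (f p) (conjH (H p) a l hl.ne'))) x‖ ≤ B + B * B := by
    intro p a l hl x
    rw [norm_iteratedFDeriv_one, df_fderiv]
    exact (norm_sub_le _ _).trans (add_le_add (hf p x).1 (hD1 p a l hl x))
  have b2 : ∀ p (a : R2 n) (l : ℝ) (hl : 0 < l), l ≤ 1 → ∀ x,
      ‖iteratedFDeriv ℝ 2 (df (f p) (comp (f p) (conjH (H p) a l hl.ne'))) x‖ ≤ A / l := by
    intro p a l hl hl1 x
    rw [← df_iter]
    refine (norm_sub_le _ _).trans ?_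
    rw [dd_eq, dd_eq]
    refine (add_le_add (hf p x).2 (hD2 p a l hl hl1 x)).trans ?_
    have h1 : B ≤ B / l := by
      rw [le_div_iff₀ hl]
      exact mul_le_of_le_one_right hB0 hl1
    rw [hAdef, add_div B]
    linarith
  have i1 : ∀ p (a : R2 n) (l : ℝ) (hl : 0 < l) (s : ℝ), 0 < s →
      dq 1 s (f p) (comp (f p) (conjH (H p) a l hl.ne')) ≤
        (B + B * B) ^ s * (2 * (l * (M + 1))) ^ (2 * n) := fun p a l hl s hs =>
    dq_le hM0 (hM p) a hl 1 hs (b1 p a l hl)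
  have i2 : ∀ p (a : R2 n) (l : ℝ) (hl : 0 < l), l ≤ 1 → ∀ (q : ℝ), 0 < q →
      dq 2 q (f p) (comp (f p) (conjH (H p) a l hl.ne')) ≤
        (A ^ q * (2 * (M + 1)) ^ (2 * n)) * l ^ (2 * n - q) := by
    intro p a l hl hl1 q hq
    refine (dq_le hM0 (hM p) a hl 2 hq (b2 p a l hl hl1)).trans (le_of_eq ?_)
    rw [Real.div_rpow hA0 hl.le, Real.rpow_sub hl]
    have : l ^ (2 * (n : ℝ)) = l ^ (2 * n) := by
      rw [← Real.rpow_natCast]
      push_cast
      rfl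
    rw [this]
    have e : (2 * (l * (M + 1))) ^ (2 * n) = (2 * (M + 1)) ^ (2 * n) * l ^ (2 * n) := by
      rw [← mul_pow]
      congr 1
      ring
    rw [e]
    have hlq := (Real.rpow_pos_of_pos hl q).ne'
    field_simp
  refine ⟨max (B * B) (A ^ (2 * (n : ℝ)) * (2 * (M + 1)) ^ (2 * n)),
    fun q s hq hqn hs ε a hε => ?_⟩
  have hn : 0 < n := by
    rcases Nat.eq_zero_or_pos n with h0 | h0
    · subst h0
      norm_num at hqn
      linarith
    · exact h0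
  have hn' : (1 : ℝ) ≤ n := by exact_mod_cast hn
  -- the choice of the scale
  obtain ⟨l, hl, hl1, hl2, hl3, hl4, hl5⟩ : ∃ l : ℝ, 0 < l ∧ l ≤ 1 ∧ l * M < ε ∧
      B * (l * B) < ε ∧ (B + B * B) ^ s * (2 * (l * (M + 1))) ^ (2 * n) < ε ∧
      (A ^ q * (2 * (M + 1)) ^ (2 * n)) * l ^ (2 * n - q) < ε := by
    have t0 : ∀ᶠ l : ℝ in 𝓝[>] 0, 0 < l := eventually_mem_nhdsWithin
    have t1 : ∀ᶠ l : ℝ in 𝓝[>] 0, l ≤ 1 :=
      (eventually_le_nhds (show (0 : ℝ) < 1 from one_pos)).filter_mono nhdsWithin_le_nhds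
    have t2 : ∀ᶠ l : ℝ in 𝓝[>] 0, l * M < ε := by
      have hc : Continuous fun l : ℝ => l * M := by fun_prop
      have := hc.tendsto 0
      simp only [zero_mul] at this
      exact (this.eventually_lt_const hε).filter_mono nhdsWithin_le_nhds
    have t3 : ∀ᶠ l : ℝ in 𝓝[>] 0, B * (l * B) < ε := by
      have hc : Continuous fun l : ℝ => B * (l * B) := by fun_prop
      have := hc.tendsto 0
      simp only [zero_mul, mul_zero] at this
      exact (this.eventually_lt_const hε).filter_mono nhdsWithin_le_nhds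
    have t4 : ∀ᶠ l : ℝ in 𝓝[>] 0,
        (B + B * B) ^ s * (2 * (l * (M + 1))) ^ (2 * n) < ε := by
      have hc : Continuous fun l : ℝ => (B + B * B) ^ s * (2 * (l * (M + 1))) ^ (2 * n) := by
        fun_prop
      have := hc.tendsto 0
      simp only [zero_mul, mul_zero, zero_pow (show 2 * n ≠ 0 by omega)] at this
      exact (this.eventually_lt_const hε).filter_mono nhdsWithin_le_nhds
    have t5 : ∀ᶠ l : ℝ in 𝓝[>] 0,
        (A ^ q * (2 * (M + 1)) ^ (2 * n)) * l ^ (2 * n - q) < ε := by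
      have hc : Continuous fun l : ℝ =>
          (A ^ q * (2 * (M + 1)) ^ (2 * n)) * l ^ (2 * (n : ℝ) - q) :=
        continuous_const.mul (continuous_id.rpow_const fun x => Or.inr (by linarith))
      have := hc.tendsto 0
      simp only [Real.zero_rpow (show 2 * (n : ℝ) - q ≠ 0 by linarith), mul_zero] at this
      exact (this.eventually_lt_const hε).filter_mono nhdsWithin_le_nhds
    obtain ⟨l, h0, h1, h2, h3, h4, h5⟩ :=
      (t0.and (t1.and (t2.and (t3.and (t4.and t5))))).exists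
    exact ⟨l, h0, h1, h2, h3, h4, h5⟩
  obtain ⟨k, hk, hk'⟩ := insert_homotopic f g a l hl
  have hk2 : ∀ p, k p = comp (f p) (conjH (H p) a l hl.ne') := hk
  refine ⟨k, hk', fun p => ?_⟩
  rw [hk2]
  refine ⟨fun x hx => ?_, fun x => ⟨?_, ?_⟩, ?_, ?_, ?_⟩
  · refine ins_out (hM p) a hl fun h1 => hx ?_
    exact Metric.closedBall_subset_ball hl2 h1
  · change ‖(f p).toEquiv x - (f p).toEquiv ((conjH (H p) a l hl.ne').toEquiv x)‖ < ε
    refine (lip_of (fun x => (hf p x).1) _ _).trans_lt ?_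
    refine lt_of_le_of_lt (mul_le_mul_of_nonneg_left ?_ hB0) hl3
    rw [norm_sub_rev]
    exact conj_near (H p) (fun x => (hH p x).1) a hl x
  · exact (hD1 p a l hl x).trans (le_max_left _ _)
  · exact (i1 p a l hl s hs).trans_lt hl4
  · exact (i2 p a l hl hl1 q hq).trans_lt hl5
  · have := i2 p a l hl hl1 (2 * n) (by linarith)
    rw [sub_self, Real.rpow_zero, mul_one] at this
    exact this.trans (le_max_right _ _)

end Pool.Agent.H60SE
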