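import Mathlib
import Pool.Agent.H60SE.Main

/-!
# Scaling of the energies
-/

set_option autoImplicit false

open scoped ContDiff Topology
open MeasureTheory Set

namespace Pool.Agent.H60SE

open Pool.Agent.W71.EC Pool.Agent.W5h83.HG Pool.Agent.W5h49.EC

variable {n : ℕ}

theorem energy_dd (q : ℝ) (φ : SympCt n) : energy q φ = ∫ y, dd φ.toEquiv y ^ q := by
  unfold energy
  simp only [dd_eq]

/-- scaling -/
theorem energy_conj (φ : SympCt n) (a : R2 n) {l : ℝ} (hl : 0 < l) (q : ℝ) :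
    energy q (conjH φ a l hl.ne') = l ^ (2 * n - q) * energy q φ := by
  rw [energy_dd, energy_dd]
  have h1 : ∀ y, dd (conjH φ a l hl.ne').toEquiv y ^ q =
      l⁻¹ ^ q * dd φ.toEquiv (l⁻¹ • (y - a)) ^ q := by
    intro y
    rw [conj_dd φ a hl y, Real.mul_rpow (inv_nonneg.2 hl.le) (dd_nonneg _ _)]
  simp only [h1]
  rw [integral_const_mul,
    integral_sub_right_eq_self (fun y => dd φ.toEquiv (l⁻¹ • y) ^ q) a,
    Measure.integral_comp_inv_smul volume (fun y => dd φ.toEquiv y ^ q) l]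
  have h2 : Module.finrank ℝ (R2 n) = 2 * n := by
    simp [R2, two_mul]
  rw [h2, smul_eq_mul, abs_of_pos (pow_pos hl _), Real.rpow_sub hl, Real.inv_rpow hl.le]
  have : l ^ (2 * (n : ℝ)) = l ^ (2 * n) := by
    rw [← Real.rpow_natCast]
    push_cast
    rfl
  rw [this]
  have hlq := (Real.rpow_pos_of_pos hl q).ne'
  field_simp

theorem energy_nonneg (q : ℝ) (φ : SympCt n) : 0 ≤ energy q φ :=
  integral_nonneg fun y => Real.rpow_nonneg (norm_nonneg _) _

/-- the energies of a compact family are bounded -/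
theorem energy_bdd {C : Type} [TopologicalSpace C] [CompactSpace C] (f : C(C, SympCt n)) {q : ℝ}
    (hq : 0 < q) : ∃ E : ℝ, ∀ p, energy q (f p) ≤ E := by
  obtain ⟨B, hB0, hB⟩ := bdd2 f
  obtain ⟨m, hm⟩ := supp_unif (isCompact_range f.continuous)
  refine ⟨B ^ q * (2 * (m + 1)) ^ (2 * n), fun p => ?_⟩
  rw [energy_dd]
  refine int_le (a := 0) (by positivity) (fun y hy => ?_)
    (fun y => Real.rpow_nonneg (dd_nonneg _ y) _)
    fun y => Real.rpow_le_rpow (dd_nonneg _ y) (hB p y).2.2 hq.le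
  have h1 : dd (f p).toEquiv y = 0 := en_out (hm _ ⟨p, rfl⟩) fun h2 =>
    hy (Metric.closedBall_subset_ball (by linarith) h2)
  rw [h1, Real.zero_rpow hq.ne']

theorem inv_one_comp (φ : SympCt n) : comp (inv one) φ = φ := by
  refine SympCt.ext' fun x => ?_
  change (one : SympCt n).toEquiv.symm (φ.toEquiv x) = φ.toEquiv x
  rw [Equiv.symm_apply_eq]
  rfl

/-- every family is homotopic to families with small energies, `q ≠ 2n` -/
theorem small_energy {C : Type} [TopologicalSpace C] [CompactSpace C] (f : C(C, SympCt n)) {q : ℝ}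
    (hq : 0 < q) (hqn : q ≠ 2 * n) {ε : ℝ} (hε : 0 < ε) : ∃ k : C(C, SympCt n),
      f.Homotopic k ∧ ∀ p, energy q (k p) ≤ ε := by
  obtain ⟨E, hE⟩ := energy_bdd f hq
  obtain ⟨l, hl, hlE⟩ : ∃ l : ℝ, 0 < l ∧ l ^ (2 * n - q) * (|E| + 1) = ε := by
    have hd : (2 * (n : ℝ) - q) ≠ 0 := sub_ne_zero.2 hqn.symm
    have h0 : 0 < ε / (|E| + 1) := by positivity
    refine ⟨(ε / (|E| + 1)) ^ (1 / (2 * (n : ℝ) - q)), Real.rpow_pos_of_pos h0 _, ?_⟩
    rw [← Real.rpow_mul h0.le, one_div_mul_cancel hd, Real.rpow_one,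
      div_mul_cancel₀ _ (by positivity)]
  obtain ⟨k, hk, hk'⟩ := insert_homotopic (ContinuousMap.const C one) f 0 l hl
  refine ⟨k, hk'.homotopic, fun p => ?_⟩
  have h1 : k p = conjH (f p) 0 l hl.ne' := by
    rw [hk]
    change comp one (conjH (comp (inv one) (f p)) 0 l hl.ne') = _
    rw [one_comp, inv_one_comp]
  rw [h1, energy_conj _ _ hl, ← hlE]
  refine mul_le_mul_of_nonneg_left ?_ (Real.rpow_nonneg hl.le _)
  linarith [hE p, le_abs_self E]

/-- **The gap for the other exponents.** -/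
theorem gap_iff (n : ℕ) {q : ℝ} (hq : 0 < q) (hqn : q ≠ 2 * n) (C : Type) [TopologicalSpace C]
    [CompactSpace C] : (∀ f g : C(C, SympCt n), f.Homotopic g) ↔
      ∃ ε : ℝ, 0 < ε ∧ ∀ f g : C(C, SympCt n), (∀ p, energy q (f p) ≤ ε) →
        (∀ p, energy q (g p) ≤ ε) → f.Homotopic g := by
  constructor
  · intro h
    exact ⟨1, one_pos, fun f g _ _ => h f g⟩
  · rintro ⟨ε, hε, h⟩ f g
    obtain ⟨k, hk, hk'⟩ := small_energy f hq hqn hε
    obtain ⟨k₂, hk₂, hk₂'⟩ := small_energy g hq hqn hε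
    exact (hk.trans (h k k₂ hk' hk₂')).trans hk₂.symm

/-- finitely many classes, `q > 2n` -/
theorem finite_classes (n : ℕ) {q : ℝ} (hq : 2 * n < q) (E : ℝ) {L : ℝ} (hL : 0 < L)
    {K : Set (R2 n)} (hK : IsCompact K) (C : Type) [MetricSpace C] [CompactSpace C] (A : Set C)
    (f₀ : C(C, SympCt n)) : ∃ S : Finset C(C, SympCt n), ∀ f : C(C, SympCt n),
      (∀ p, f p ∈ supportedIn K) → (∀ p, energy q (f p) ≤ E) →
      (∀ p p' x, ‖(f p).toEquiv x - (f p').toEquiv x‖ ≤ L * dist p p') →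
      (∀ p ∈ A, f p = f₀ p) → ∃ g ∈ S, f.HomotopicRel g A := by
  rcases Nat.eq_zero_or_pos n with h0 | hn
  · subst h0
    refine ⟨{f₀}, fun f _ _ _ _ => ⟨f₀, Finset.mem_singleton_self _, ?_⟩⟩
    rw [eq_of_n0 f f₀]
    exact ContinuousMap.HomotopicRel.refl _
  obtain ⟨R, hR, hosc⟩ := osc_of_energy hn hq E
  obtain ⟨S, hS⟩ := finfam n (kerfam (moljc2 n)) (1 / 2) (by norm_num) R L hR hL K hK C A f₀
  exact ⟨S, fun f h1 h2 h3 h4 => hS f h1 (fun p => hosc _ (h2 p)) h3 h4⟩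

end Pool.Agent.H60SE
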